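import Pool.Agent.T9h87.Lin.Cross
import Pool.Agent.Results.MP_c5a51c_co.PolyhedralCounterexample

set_option autoImplicit false

namespace Pool.Agent.T9h87.Lin

open Finset
open scoped Classical
open Pool.Agent.Results.MP_c5a51c_co.PolyhedralCounterexample

/-- the hulls of the points `g i`, `i ∈ T` and `i ∈ T'` meet -/
def Crs {W : Type} (g : W → V4) (T T' : Finset W) : Prop :=
  ∃ w w' : W → ℝ, (∀ i ∈ T, 0 ≤ w i) ∧ (∀ i ∈ T', 0 ≤ w' i) ∧ ∑ i ∈ T, w i = 1 ∧ ∑ i ∈ T', w' i = 1 ∧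
      ∑ i ∈ T, w i • g i = ∑ i ∈ T', w' i • g i

lemma norm_sum_lt {W : Type} (g g' : W → V4) (T : Finset W) (w : W → ℝ) (h0 : ∀ i ∈ T, 0 ≤ w i)
    (h1 : ∑ i ∈ T, w i = 1) {δ : ℝ} (h : ∀ i, ‖g' i - g i‖ ≤ δ) :
    ‖∑ i ∈ T, w i • g' i - ∑ i ∈ T, w i • g i‖ ≤ δ := by
  rw [← Finset.sum_sub_distrib]
  calc ‖∑ i ∈ T, (w i • g' i - w i • g i)‖ ≤ ∑ i ∈ T, ‖w i • g' i - w i • g i‖ := norm_sum_le _ _
    _ ≤ ∑ i ∈ T, w i * δ := by
        refine Finset.sum_le_sum (fun i hi => ?_)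
        rw [← smul_sub, norm_smul, Real.norm_eq_abs, abs_of_nonneg (h0 i hi)]
        exact mul_le_mul_of_nonneg_left (h i) (h0 i hi)
    _ = δ := by rw [← Finset.sum_mul, h1, one_mul]

lemma crs_stable {W : Type} (g : W → V4) (T T' : Finset W) (h : ¬ Crs g T T') :
    ∃ δ : ℝ, 0 < δ ∧ ∀ g' : W → V4, (∀ i, ‖g' i - g i‖ ≤ δ) → ¬ Crs g' T T' := by
  have hd : Disjoint (hull g T) (hull g T') := by
    rw [Set.disjoint_left]
    intro z hz hz'
    obtain ⟨w, hw0, hw1, hwz⟩ := (mem_hull_iff g T z).mp hz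
    obtain ⟨w', hw0', hw1', hwz'⟩ := (mem_hull_iff g T' z).mp hz'
    exact h ⟨w, w', hw0, hw0', hw1, hw1', hwz.trans hwz'.symm⟩
  obtain ⟨r, hr, hrd⟩ := hd.exists_thickenings (isCompact_hull g T) (isClosed_hull g T')
  refine ⟨r / 4, by linarith, ?_⟩
  rintro g' hg' ⟨w, w', hw0, hw0', hw1, hw1', hww⟩
  have h1 := norm_sum_lt g g' T w hw0 hw1 hg'
  have h2 := norm_sum_lt g g' T' w' hw0' hw1' hg'
  set z := ∑ i ∈ T, w i • g i with hz
  set z' := ∑ i ∈ T', w' i • g i with hz'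
  have hzm : z ∈ hull g T := (mem_hull_iff g T z).mpr ⟨w, hw0, hw1, rfl⟩
  have hzm' : z' ∈ hull g T' := (mem_hull_iff g T' z').mpr ⟨w', hw0', hw1', rfl⟩
  have h3 : dist z z' < r := by
    rw [dist_eq_norm]
    have : z - z' = -(∑ i ∈ T, w i • g' i - z) + (∑ i ∈ T', w' i • g' i - z') := by
      rw [hww]; abel
    rw [this]
    calc _ ≤ ‖-(∑ i ∈ T, w i • g' i - z)‖ + ‖∑ i ∈ T', w' i • g' i - z'‖ := norm_add_le _ _
      _ ≤ r / 4 + r / 4 := by rw [norm_neg]; exact add_le_add h1 h2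
      _ < r := by linarith
  exact Set.disjoint_left.mp hrd (Metric.mem_thickening_iff.mpr ⟨z, hzm, by rw [dist_comm]; exact h3⟩ : z' ∈ _)
    (Metric.mem_thickening_iff.mpr ⟨z', hzm', by rw [dist_self]; exact hr⟩)

/-- three distinct elements of a set of three classes, in increasing order -/
lemma three (τ : Finset (Fin 7)) (h : τ.card = 3) : ∃ i j k : Fin 7, i < j ∧ j < k ∧ τ = {i, j, k} := by
  revert τ
  decide +kernel

theorem core (hS : StSepAll) (hC : StCross) (hH : StHyp) (hP : StPert) : StCore := by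
  obtain ⟨Q, hQ, hS⟩ := hS
  obtain ⟨n, hn, H, hL, hH⟩ := hH Q hQ Q
  refine ⟨n, H, hL, ?_⟩
  intro g
  by_contra hcon
  push Not at hcon
  have hno : ∀ T ∈ H, ∀ T' ∈ H, Disjoint T T' → ¬ Crs g T T' := by
    rintro T hT T' hT' hTT ⟨w, w', h0, h0', h1, h1', hww⟩
    exact hcon T hT T' hT' hTT w w' h0 h0' h1 h1' hww
  -- a common radius
  have hex : ∃ δ : ℝ, 0 < δ ∧ ∀ T ∈ H, ∀ T' ∈ H, Disjoint T T' →
      ∀ g' : Fin 7 × Fin n → V4, (∀ i, ‖g' i - g i‖ ≤ δ) → ¬ Crs g' T T' := by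
    have h1 : ∀ q ∈ (H ×ˢ H).filter (fun q => Disjoint q.1 q.2), ∀ᶠ δ in nhdsWithin (0 : ℝ) (Set.Ioi 0),
        ∀ g' : Fin 7 × Fin n → V4, (∀ i, ‖g' i - g i‖ ≤ δ) → ¬ Crs g' q.1 q.2 := by
      intro q hq
      rw [Finset.mem_filter, Finset.mem_product] at hq
      obtain ⟨δ, hδ, h2⟩ := crs_stable g q.1 q.2 (hno _ hq.1.1 _ hq.1.2 hq.2)
      filter_upwards [Ioo_mem_nhdsGT hδ] with e he g' hg'
      exact h2 g' (fun i => (hg' i).trans he.2.le)
    have h2 := (Filter.eventually_all_finset _).mpr h1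
    obtain ⟨δ, h3, h4⟩ := (h2.and self_mem_nhdsWithin).exists
    refine ⟨δ, h4, fun T hT T' hT' hTT => ?_⟩
    exact h3 (T, T') (by rw [Finset.mem_filter, Finset.mem_product]; exact ⟨⟨hT, hT'⟩, hTT⟩)
  obtain ⟨δ, hδ, hno'⟩ := hex
  obtain ⟨g', hGP, hg'⟩ := hP _ g δ hδ
  obtain ⟨Y, hYc, hY⟩ := hS n g' hGP hn
  have hn0 : 0 < n := lt_of_lt_of_le hQ hn
  have hYne : ∀ k, (Y k).Nonempty := by
    intro k
    rw [← Finset.card_pos]
    by_contra h0
    have h1 : (Y k).card = 0 := by omega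
    have h2 := hYc k
    rw [h1, mul_zero] at h2
    omega
  obtain ⟨τ, σ, hτ, hσ, hd, hcr⟩ := hC n g' Y hYne hY
  obtain ⟨i, j, k, hij, hjk, hτe⟩ := three τ hτ
  obtain ⟨i', j', k', hij', hjk', hσe⟩ := three σ hσ
  obtain ⟨a, ha, b, hb, c, hc, hT⟩ := hH i j k hij hjk (Y i) (Y j) (Y k) (hYc i) (hYc j) (hYc k)
  obtain ⟨a', ha', b', hb', c', hc', hT'⟩ := hH i' j' k' hij' hjk' (Y i') (Y j') (Y k') (hYc i') (hYc j') (hYc k')
  choose y0 hy0 using hYne
  -- the transversal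
  set y : Fin 7 → Fin n := fun m => if m = i then a else if m = j then b else if m = k then c else
    if m = i' then a' else if m = j' then b' else if m = k' then c' else y0 m with hyd
  have hik : i < k := hij.trans hjk
  have hik' : i' < k' := hij'.trans hjk'
  have hdis : ∀ m, m ∈ τ → m ∈ σ → False := fun m h1 h2 => Finset.disjoint_left.mp hd h1 h2
  have hi'τ : ∀ m ∈ σ, m ≠ i ∧ m ≠ j ∧ m ≠ k := by
    intro m hm
    refine ⟨?_, ?_, ?_⟩ <;> rintro rfl <;> refine hdis _ ?_ hm <;> rw [hτe] <;> simp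
  have hi'm : i' ∈ σ := by rw [hσe]; simp
  have hj'm : j' ∈ σ := by rw [hσe]; simp
  have hk'm : k' ∈ σ := by rw [hσe]; simp
  have yi : y i = a := by simp [hyd]
  have yj : y j = b := by simp [hyd, hij.ne']
  have yk : y k = c := by simp [hyd, hik.ne', hjk.ne']
  have yi' : y i' = a' := by
    obtain ⟨h1, h2, h3⟩ := hi'τ i' hi'm
    simp [hyd, h1, h2, h3]
  have yj' : y j' = b' := by
    obtain ⟨h1, h2, h3⟩ := hi'τ j' hj'm
    simp [hyd, h1, h2, h3, hij'.ne']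
  have yk' : y k' = c' := by
    obtain ⟨h1, h2, h3⟩ := hi'τ k' hk'm
    simp [hyd, h1, h2, h3, hik'.ne', hjk'.ne']
  have hyY : ∀ m, y m ∈ Y m := by
    intro m
    rw [hyd]
    dsimp only
    split_ifs with h1 h2 h3 h4 h5 h6
    · rw [h1]; exact ha
    · rw [h2]; exact hb
    · rw [h3]; exact hc
    · rw [h4]; exact ha'
    · rw [h5]; exact hb'
    · rw [h6]; exact hc'
    · exact hy0 m
  obtain ⟨ν, hν0, hν1, hνp, hνm, hνz⟩ := hcr y hyY
  have hTe : ({(i, a), (j, b), (k, c)} : Finset (Fin 7 × Fin n)) = τ.image (fun m => (m, y m)) := by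
    rw [hτe]
    simp [Finset.image_insert, yi, yj, yk]
  have hTe' : ({(i', a'), (j', b'), (k', c')} : Finset (Fin 7 × Fin n)) = σ.image (fun m => (m, y m)) := by
    rw [hσe]
    simp [Finset.image_insert, yi', yj', yk']
  have hinj : Function.Injective (fun m : Fin 7 => (m, y m)) := fun m m' h => congrArg Prod.fst h
  have hTT : Disjoint ({(i, a), (j, b), (k, c)} : Finset (Fin 7 × Fin n)) {(i', a'), (j', b'), (k', c')} := by
    rw [hTe, hTe', Finset.disjoint_image hinj]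
    exact hd
  refine hno' _ hT _ hT' hTT g' (fun i => (hg' i).le) ?_
  -- weights
  have hsplit : ∀ {A : Type} [AddCommGroup A] (F : Fin 7 → A), (∀ m, m ∉ τ → m ∉ σ → F m = 0) →
      ∑ m, F m = ∑ m ∈ τ, F m + ∑ m ∈ σ, F m := by
    intro A _ F hF
    rw [← Finset.sum_union hd]
    symm
    apply Finset.sum_subset (Finset.subset_univ _)
    intro m _ hm
    rw [Finset.mem_union, not_or] at hm
    exact hF m hm.1 hm.2
  set s : ℝ := ∑ m ∈ τ, ν m with hs
  have hs0 : 0 < s := Finset.sum_pos hνp (by rw [← Finset.card_pos, hτ]; norm_num)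
  have hs' : ∑ m ∈ σ, ν m = -s := by
    have := hsplit ν hνz
    rw [hν0] at this
    linarith
  have hν1' := hsplit (fun m => ν m • g' (m, y m)) (fun m h1 h2 => by rw [hνz m h1 h2, zero_smul])
  rw [hν1] at hν1'
  refine ⟨fun x => ν x.1 / s, fun x => - ν x.1 / s, ?_, ?_, ?_, ?_, ?_⟩
  · rw [hTe]
    intro x hx
    obtain ⟨m, hm, rfl⟩ := Finset.mem_image.mp hx
    exact div_nonneg (hνp m hm).le hs0.le
  · rw [hTe']
    intro x hx
    obtain ⟨m, hm, rfl⟩ := Finset.mem_image.mp hx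
    exact div_nonneg (by have := hνm m hm; linarith) hs0.le
  · rw [hTe, Finset.sum_image (fun m _ m' _ h => hinj h)]
    rw [← Finset.sum_div]
    exact div_self hs0.ne'
  · rw [hTe', Finset.sum_image (fun m _ m' _ h => hinj h)]
    rw [← Finset.sum_div, Finset.sum_neg_distrib, hs', neg_neg]
    exact div_self hs0.ne'
  · rw [hTe, hTe', Finset.sum_image (fun m _ m' _ h => hinj h), Finset.sum_image (fun m _ m' _ h => hinj h)]
    have e1 : ∑ m ∈ τ, (ν m / s) • g' (m, y m) = s⁻¹ • ∑ m ∈ τ, ν m • g' (m, y m) := by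
      rw [Finset.smul_sum]
      refine Finset.sum_congr rfl (fun m _ => ?_)
      rw [smul_smul, div_eq_inv_mul]
    have e2 : ∑ m ∈ σ, (-ν m / s) • g' (m, y m) = s⁻¹ • -∑ m ∈ σ, ν m • g' (m, y m) := by
      rw [← Finset.sum_neg_distrib, Finset.smul_sum]
      refine Finset.sum_congr rfl (fun m _ => ?_)
      rw [← neg_smul, smul_smul, div_eq_inv_mul]
    show ∑ m ∈ τ, (ν m / s) • g' (m, y m) = ∑ m ∈ σ, (-ν m / s) • g' (m, y m)
    rw [e1, e2]
    congr 1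
    exact eq_neg_of_add_eq_zero_left hν1'.symm

end Pool.Agent.T9h87.Lin
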