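import Pool.Agent.T9h87.Lin.Five

set_option autoImplicit false
set_option linter.unusedSectionVars false

namespace Pool.Agent.T9h87.Lin

open Finset
open scoped Classical
open Pool.Agent.Results.MP_c5a51c_co.PolyhedralCounterexample

section real

variable {ι : Type} [Fintype ι]

/-- a closed simplex in barycentric coordinates -/
lemma KK_compact (M : Finset (Finset ι)) : IsCompact (KK M) := by
  have h1 : KK M = ⋃ s ∈ M, (stdSimplex ℝ ι ∩ {x : ι → ℝ | ∀ i, i ∉ s → x i = 0}) := by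
    ext x
    simp only [KK, Set.mem_ofPred_eq, Set.mem_iUnion, Set.mem_inter_iff, stdSimplex, exists_prop]
    constructor
    · rintro ⟨s, hs, h0, h1, h2⟩
      exact ⟨s, hs, ⟨h0, h1⟩, h2⟩
    · rintro ⟨s, hs, ⟨h0, h1⟩, h2⟩
      exact ⟨s, hs, h0, h1, h2⟩
  rw [h1]
  apply M.isCompact_biUnion
  intro s _
  apply (isCompact_stdSimplex ℝ ι).inter_right
  have h2 : {x : ι → ℝ | ∀ i, i ∉ s → x i = 0} = ⋂ i, ⋂ (_ : i ∉ s), {x : ι → ℝ | x i = 0} := by
    ext x
    simp
  rw [h2]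
  exact isClosed_iInter fun i => isClosed_iInter fun _ => isClosed_eq (continuous_apply i) continuous_const

/-- the affine map given by the points `p` -/
noncomputable def Phi (p : ι → E5) (x : ι → ℝ) : E5 := ∑ i, x i • p i

lemma Phi_cont (p : ι → E5) : Continuous (Phi p) :=
  continuous_finsetSum _ (fun i _ => (continuous_apply i).smul continuous_const)

lemma Phi_eq (p : ι → E5) {x : ι → ℝ} {s : Finset ι} (h : ∀ i, i ∉ s → x i = 0) :
    Phi p x = ∑ i ∈ s, x i • p i :=
  (Finset.sum_subset (Finset.subset_univ s) (fun i _ hi => by rw [h i hi, zero_smul])).symm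

lemma sum_eq {x : ι → ℝ} {s : Finset ι} (h : ∀ i, i ∉ s → x i = 0) (h1 : ∑ i, x i = 1) :
    ∑ i ∈ s, x i = 1 := by
  rw [← h1]
  exact Finset.sum_subset (Finset.subset_univ s) (fun i _ hi => h i hi)

lemma Phi_inj {τ : ι → ℝ} {p : ι → E5} (h : Mom τ p) (M : Finset (Finset ι)) (hcard : ∀ s ∈ M, s.card ≤ 3) :
    Set.InjOn (Phi p) (KK M) := by
  rintro x ⟨s, hs, hx0, hx1, hx2⟩ y ⟨t, ht, hy0, hy1, hy2⟩ hxy
  rw [Phi_eq p hx2, Phi_eq p hy2] at hxy
  exact h.eq_of_sum s t (hcard s hs) (hcard t ht) x y hx2 hy2 (sum_eq hx2 hx1) (sum_eq hy2 hy1) hxy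

lemma Phi_image (p : ι → E5) (M : Finset (Finset ι)) :
    Phi p '' (KK M) = ⋃₀ ((fun s => hull p s) '' (M : Set (Finset ι))) := by
  ext z
  constructor
  · rintro ⟨x, ⟨s, hs, hx0, hx1, hx2⟩, rfl⟩
    refine ⟨hull p s, ⟨s, hs, rfl⟩, ?_⟩
    rw [mem_hull_iff]
    exact ⟨x, fun i _ => hx0 i, sum_eq hx2 hx1, (Phi_eq p hx2).symm⟩
  · rintro ⟨_, ⟨s, hs, rfl⟩, hz⟩
    obtain ⟨w, hw0, hw1, hwz⟩ := (mem_hull_iff p s z).mp hz
    have hx2 : ∀ i, i ∉ s → (fun i => if i ∈ s then w i else 0) i = 0 := fun i hi => if_neg hi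
    refine ⟨fun i => if i ∈ s then w i else 0, ⟨s, hs, ?_, ?_, hx2⟩, ?_⟩
    · intro i
      show 0 ≤ if i ∈ s then w i else 0
      split_ifs with h
      · exact hw0 i h
      · exact le_refl _
    · rw [← hw1]
      rw [Finset.sum_ite_mem, Finset.univ_inter]
    · rw [Phi_eq p hx2, ← hwz]
      exact Finset.sum_congr rfl (fun i hi => by rw [if_pos hi])

/-- the realisation as a homeomorphism -/
lemma exists_homeo {Y : Type} [TopologicalSpace Y] [T2Space Y] (M : Finset (Finset ι)) (f : (ι → ℝ) → Y)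
    (hf : ContinuousOn f (KK M)) (hi : Set.InjOn f (KK M)) : Nonempty (KK M ≃ₜ (f '' KK M)) := by
  have : CompactSpace (KK M) := isCompact_iff_compactSpace.mp (KK_compact M)
  have h1 : Continuous (fun x : KK M => f x) := by
    rw [continuousOn_iff_continuous_domRestrict] at hf
    exact hf
  have h2 : Function.Injective (fun x : KK M => f x) := fun x y hxy => Subtype.ext (hi x.2 y.2 hxy)
  have h3 := (h1.isClosedEmbedding h2).isEmbedding
  have h4 : Set.range (fun x : KK M => f x) = f '' KK M := by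
    rw [Set.image_eq_range]
  rw [← h4]
  exact ⟨h3.toHomeomorph⟩

end real

section main

variable {W : Type} [Fintype W]

/-- simplicial counterexample, from the pieces -/
theorem simplicial_aux (hTop : StTop) (hLow : StLow) (H : Finset (Finset W)) (h3 : ∀ T ∈ H, T.card = 3)
    (hlin : ∀ T ∈ H, ∀ T' ∈ H, T ≠ T' → ∀ a ∈ T, a ∈ T' → ∀ b ∈ T, b ∈ T' → a = b) (τ : W ⊕ Fin 3 × Bool → ℝ)
    (p : W ⊕ Fin 3 × Bool → E5) (hM : Mom τ p)
    (hcore : ∀ g : W → V4, ∃ T ∈ H, ∃ T' ∈ H, Disjoint T T' ∧ ∃ w w' : W → ℝ, (∀ i ∈ T, 0 ≤ w i) ∧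
      (∀ i ∈ T', 0 ≤ w' i) ∧ ∑ i ∈ T, w i = 1 ∧ ∑ i ∈ T', w' i = 1 ∧
      ∑ i ∈ T, w i • g i = ∑ i ∈ T', w' i • g i) :
    ∃ C : Cplx 5, IsTwoComplex C ∧ (∀ P ∈ C.members, ∃ s : Finset E5, s.Nonempty ∧
      AffineIndependent ℝ (fun x : s => (x : E5)) ∧ P = convexHull ℝ (s : Set E5)) ∧
      aDim C = 3 ∧ bDim C = 5 := by
  set M : Finset (Finset (W ⊕ Fin 3 × Bool)) := Mx H with hMdef
  have hcard : ∀ s ∈ M, s.card ≤ 3 := fun s hs => Mx_card h3 hs
  have hc : Cert M p := hM.cert M (fun s hs => Mx_ne hs) Mx_sing (fun s hs t hts ht => Mx_down hs hts ht) hcard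
  have hmem : hc.cplx.members = (fun s => hull p s) '' (M : Set (Finset (W ⊕ Fin 3 × Bool))) := rfl
  have hsupp : hc.cplx.support = Phi p '' (KK M) := by
    rw [Phi_image]; rfl
  have hPhi : Set.InjOn (Phi p) (KK M) := Phi_inj hM M hcard
  obtain ⟨e0⟩ := exists_homeo M (Phi p) (Phi_cont p).continuousOn hPhi
  refine ⟨hc.cplx, ?_, ?_, ?_, ?_⟩
  · -- dimension two
    intro P hP
    rw [hmem] at hP
    obtain ⟨s, hs, rfl⟩ := hP
    have hs1 : 0 < s.card := Finset.card_pos.mpr (Mx_ne hs)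
    have hs3 : s.card ≤ 3 := hcard s hs
    have h1 : vectorSpan ℝ (hull p s) = vectorSpan ℝ (p '' (s : Set (W ⊕ Fin 3 × Bool))) := by
      unfold hull
      rw [← direction_affineSpan, ← direction_affineSpan, affineSpan_convexHull]
    show Module.finrank ℝ (vectorSpan ℝ (hull p s)) ≤ 2
    rw [h1, ← Finset.coe_image]
    have h2 := finrank_vectorSpan_image_finset_le ℝ p s (n := s.card - 1) (by omega)
    refine le_trans ?_ (h2.trans (by omega))
    exact le_refl _
  · -- simplicial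
    intro P hP
    rw [hmem] at hP
    obtain ⟨s, hs, rfl⟩ := hP
    refine ⟨s.image p, (Mx_ne hs).image p, hM.affineIndependent s (hcard s hs), ?_⟩
    show hull p s = _
    unfold hull
    rw [Finset.coe_image]
  · -- the topological dimension
    have hup : ∃ T : Set (EuclideanSpace ℝ (Fin 3)), Nonempty (hc.cplx.support ≃ₜ T) := by
      obtain ⟨F, hF, hFi⟩ := hTop W H h3 (fun T hT T' hT' hne => by
        rw [Finset.card_le_one]
        intro a ha b hb
        rw [Finset.mem_inter] at ha hb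
        exact hlin T hT T' hT' hne a ha.1 ha.2 b hb.1 hb.2)
      obtain ⟨e1⟩ := exists_homeo M F hF.continuousOn hFi
      refine ⟨F '' KK M, ⟨?_⟩⟩
      rw [hsupp]
      exact e0.symm.trans e1
    apply le_antisymm
    · exact Nat.sInf_le hup
    · apply le_csInf ⟨3, hup⟩
      rintro m ⟨T, ⟨h⟩⟩
      by_contra hm
      push Not at hm
      rw [hsupp] at h
      set k : KK M ≃ₜ T := e0.trans h with hk
      refine hLow W H (fun x => if hx : x ∈ KK M then toC (k ⟨x, hx⟩ : EuclideanSpace ℝ (Fin m)) else 0) ?_ ?_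
      · rw [continuousOn_iff_continuous_domRestrict]
        have h1 : (KK M).domRestrict (fun x => if hx : x ∈ KK M then toC (k ⟨x, hx⟩ : EuclideanSpace ℝ (Fin m)) else 0) =
            fun x => toC (k x : EuclideanSpace ℝ (Fin m)) := by
          funext x
          exact dif_pos x.2
        rw [h1]
        exact toC_cont.comp (continuous_subtype_val.comp k.continuous)
      · intro x hx y hy hxy
        have e1 : (if hx : x ∈ KK M then toC (k ⟨x, hx⟩ : EuclideanSpace ℝ (Fin m)) else 0) = toC (k ⟨x, hx⟩ : EuclideanSpace ℝ (Fin m)) := dif_pos hx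
        have e2 : (if hx : y ∈ KK M then toC (k ⟨y, hx⟩ : EuclideanSpace ℝ (Fin m)) else 0) = toC (k ⟨y, hy⟩ : EuclideanSpace ℝ (Fin m)) := dif_pos hy
        have h2 : toC (k ⟨x, hx⟩ : EuclideanSpace ℝ (Fin m)) = toC (k ⟨y, hy⟩ : EuclideanSpace ℝ (Fin m)) := by
          rw [← e1, ← e2]; exact hxy
        have h3 := toC_inj (by omega) h2
        have h4 := k.injective (Subtype.ext h3)
        exact congrArg Subtype.val h4
  · -- the linear dimension
    apply le_antisymm
    · exact Nat.sInf_le ⟨hc.cplx, combEquiv_refl _⟩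
    · apply le_csInf (s := {m : ℕ | ∃ D : Cplx m, CombEquiv hc.cplx D}) ⟨5, ⟨hc.cplx, combEquiv_refl _⟩⟩
      rintro m ⟨D, hD⟩
      by_contra hm
      push Not at hm
      obtain ⟨q, hq⟩ := real_of_equiv M p hc.ne hc.sing (fun s hs t ht => hc.sub_iff hs ht) hc.cplx hmem D hD
      obtain ⟨T, hT, T', hT', hdis, w, w', hw0, hw0', hw1, hw1', hww⟩ :=
        hcore (fun v i => if h : i.val < m then q (Sum.inl v) ⟨i.val, h⟩ else 0)
      have hTM : ∀ T ∈ H, T.map Function.Embedding.inl ∈ M := by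
        intro T hT
        refine mem_Mx.mpr ⟨?_, Or.inr (Or.inl ⟨T, hT, Finset.Subset.refl _⟩)⟩
        rw [Finset.map_nonempty, ← Finset.card_pos, h3 T hT]
        omega
      have hz : ∑ i ∈ T, w i • q (Sum.inl i) = ∑ i ∈ T', w' i • q (Sum.inl i) := by
        ext j
        have h5 := congrFun hww ⟨j.val, by omega⟩
        have ej : j.val < m := j.2
        rw [Finset.sum_apply, Finset.sum_apply] at h5
        simp only [Pi.smul_apply, smul_eq_mul, ej, dif_pos] at h5
        rw [WithLp.ofLp_sum, WithLp.ofLp_sum, Finset.sum_apply, Finset.sum_apply]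
        simpa using h5
      have hz1 : ∑ i ∈ T, w i • q (Sum.inl i) ∈ hull q (T.map Function.Embedding.inl) := by
        rw [mem_hull_iff]
        refine ⟨Sum.elim w (fun _ => 0), ?_, ?_, ?_⟩
        · intro i hi
          obtain ⟨a, ha, rfl⟩ := Finset.mem_map.mp hi
          exact hw0 a ha
        · rw [Finset.sum_map]; exact hw1
        · rw [Finset.sum_map]; rfl
      have hz2 : ∑ i ∈ T, w i • q (Sum.inl i) ∈ hull q (T'.map Function.Embedding.inl) := by
        rw [hz, mem_hull_iff]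
        refine ⟨Sum.elim w' (fun _ => 0), ?_, ?_, ?_⟩
        · intro i hi
          obtain ⟨a, ha, rfl⟩ := Finset.mem_map.mp hi
          exact hw0' a ha
        · rw [Finset.sum_map]; exact hw1'
        · rw [Finset.sum_map]; rfl
      obtain ⟨r, hr, hrT, hrT', hzr⟩ := hq.inter _ (hTM T hT) _ (hTM T' hT') _ hz1 hz2
      obtain ⟨x, hx⟩ := Mx_ne hr
      obtain ⟨a, ha, rfl⟩ := Finset.mem_map.mp (hrT hx)
      obtain ⟨b, hb, hab⟩ := Finset.mem_map.mp (hrT' hx)
      have : b = a := Function.Embedding.inl.injective hab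
      rw [this] at hb
      exact Finset.disjoint_left.mp hdis ha hb

/-- the simplicial counterexample -/
theorem simplicial_of_pieces (hTop : StTop) (hLow : StLow) (hMom : StMom) (hCore : StCore) :
    ∃ C : Cplx 5, IsTwoComplex C ∧ (∀ P ∈ C.members, ∃ s : Finset E5, s.Nonempty ∧
      AffineIndependent ℝ (fun x : s => (x : E5)) ∧ P = convexHull ℝ (s : Set E5)) ∧
      aDim C = 3 ∧ bDim C = 5 := by
  obtain ⟨n, H, hH, hcore⟩ := hCore
  obtain ⟨τ, p, hM⟩ := hMom ((Fin 7 × Fin n) ⊕ Fin 3 × Bool)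
  refine simplicial_aux hTop hLow H ?_ ?_ τ p hM hcore
  · intro T hT
    obtain ⟨i, j, k, a, b, c, hij, hjk, rfl⟩ := hH.form T hT
    have h1 : (i, a) ≠ (j, b) := fun h => hij.ne (congrArg Prod.fst h)
    have h2 : (i, a) ≠ (k, c) := fun h => (hij.trans hjk).ne (congrArg Prod.fst h)
    have h3 : (j, b) ≠ (k, c) := fun h => hjk.ne (congrArg Prod.fst h)
    rw [Finset.card_eq_three]
    exact ⟨_, _, _, h1, h2, h3, rfl⟩
  · intro T hT T' hT' hne a ha ha' b hb hb'
    exact Finset.card_le_one.mp (hH.lin T hT T' hT' hne) a (Finset.mem_inter.mpr ⟨ha, ha'⟩) b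
      (Finset.mem_inter.mpr ⟨hb, hb'⟩)

end main

end Pool.Agent.T9h87.Lin
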