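import Pool.Agent.T9h87.Lin.Spec

set_option autoImplicit false

namespace Pool.Agent.T9h87.Lin

open Finset
open scoped Classical

/-- strict linear inequalities on a cluster pass to its convex hull -/
lemma lt_hull {n : ℕ} {g : Fin 7 × Fin n → V4} {A : Finset (Fin n)} {k : Fin 7} {l : V4 →ₗ[ℝ] ℝ} {c : ℝ}
    (h : ∀ a ∈ A, l (g (k, a)) < c) {z : V4} (hz : z ∈ convexHull ℝ ((fun a => g (k, a)) '' (A : Set (Fin n)))) :
    l z < c := by
  have h1 : convexHull ℝ ((fun a => g (k, a)) '' (A : Set (Fin n))) ⊆ {x | l x < c} := by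
    apply convexHull_min
    · rintro _ ⟨a, ha, rfl⟩
      exact h a ha
    · exact convex_halfSpace_lt l.isLinear c
  exact h1 hz

lemma gt_hull {n : ℕ} {g : Fin 7 × Fin n → V4} {A : Finset (Fin n)} {k : Fin 7} {l : V4 →ₗ[ℝ] ℝ} {c : ℝ}
    (h : ∀ a ∈ A, c < l (g (k, a))) {z : V4} (hz : z ∈ convexHull ℝ ((fun a => g (k, a)) '' (A : Set (Fin n)))) :
    c < l z := by
  have h1 : convexHull ℝ ((fun a => g (k, a)) '' (A : Set (Fin n))) ⊆ {x | c < l x} := by
    apply convexHull_min
    · rintro _ ⟨a, ha, rfl⟩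
      exact h a ha
    · exact convex_halfSpace_gt l.isLinear c
  exact h1 hz

/-- (E2) -/
lemma indep {n : ℕ} {g : Fin 7 × Fin n → V4} {Y : Fin 7 → Finset (Fin n)}
    (hS : ∀ I J : Finset (Fin 7), Disjoint I J → I.card + J.card ≤ 5 → Sep g Y I J)
    (z : Fin 7 → V4) (μ : Fin 7 → ℝ)
    (hz : ∀ k, μ k ≠ 0 → z k ∈ convexHull ℝ ((fun a => g (k, a)) '' (Y k : Set (Fin n))))
    (h0 : ∑ k, μ k = 0) (h1 : ∑ k, μ k • z k = 0)
    (hc : (univ.filter (fun k => μ k ≠ 0)).card ≤ 5) : μ = 0 := by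
  set I := univ.filter (fun k => 0 < μ k) with hI
  set J := univ.filter (fun k => μ k < 0) with hJ
  have hd : Disjoint I J := by
    rw [Finset.disjoint_left]
    intro k hk hk2
    rw [hI, Finset.mem_filter] at hk
    rw [hJ, Finset.mem_filter] at hk2
    linarith [hk.2, hk2.2]
  have hIJ : I.card + J.card ≤ 5 := by
    rw [← Finset.card_union_of_disjoint hd]
    refine le_trans (Finset.card_le_card ?_) hc
    intro k hk
    rw [Finset.mem_union, hI, hJ, Finset.mem_filter, Finset.mem_filter] at hk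
    rw [Finset.mem_filter]
    refine ⟨Finset.mem_univ _, ?_⟩
    rcases hk with hk | hk
    · exact ne_of_gt hk.2
    · exact ne_of_lt hk.2
  obtain ⟨l, c, hl1, hl2⟩ := hS I J hd hIJ
  have h2 : ∑ k, μ k * (l (z k) - c) = 0 := by
    have h3 : l (∑ k, μ k • z k) = 0 := by rw [h1, map_zero]
    rw [map_sum] at h3
    simp only [map_smul, smul_eq_mul] at h3
    simp only [mul_sub, Finset.sum_sub_distrib, ← Finset.sum_mul, h0, h3]
    simp
  have h3 : ∀ k ∈ (univ : Finset (Fin 7)), μ k * (l (z k) - c) ≤ 0 := by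
    intro k _
    rcases lt_trichotomy (μ k) 0 with h | h | h
    · have h4 : c < l (z k) := gt_hull (fun a ha => hl2 k (by rw [hJ, Finset.mem_filter]; exact ⟨Finset.mem_univ _, h⟩) a ha)
        (hz k h.ne)
      nlinarith
    · rw [h, zero_mul]
    · have h4 : l (z k) < c := lt_hull (fun a ha => hl1 k (by rw [hI, Finset.mem_filter]; exact ⟨Finset.mem_univ _, h⟩) a ha)
        (hz k h.ne')
      nlinarith
  have h4 := (Finset.sum_eq_zero_iff_of_nonpos h3).mp h2
  funext k
  have h5 := h4 k (Finset.mem_univ _)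
  rcases lt_trichotomy (μ k) 0 with h | h | h
  · exfalso
    have h6 : c < l (z k) := gt_hull (fun a ha => hl2 k (by rw [hJ, Finset.mem_filter]; exact ⟨Finset.mem_univ _, h⟩) a ha)
        (hz k h.ne)
    nlinarith
  · exact h
  · exfalso
    have h6 : l (z k) < c := lt_hull (fun a ha => hl1 k (by rw [hI, Finset.mem_filter]; exact ⟨Finset.mem_univ _, h⟩) a ha)
        (hz k h.ne')
    nlinarith

/-- six points in dimension four are dependent -/
lemma exists_dep (S : Finset (Fin 7)) (hS : S.card = 6) (x : Fin 7 → V4) :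
    ∃ μ : Fin 7 → ℝ, μ ≠ 0 ∧ (∀ k, k ∉ S → μ k = 0) ∧ ∑ k, μ k = 0 ∧ ∑ k, μ k • x k = 0 := by
  -- the linear map from functions on `S`
  let L : (S → ℝ) →ₗ[ℝ] (ℝ × V4) :=
    { toFun := fun μ => (∑ k, μ k, ∑ k, μ k • x k)
      map_add' := by
        intro a b
        simp only [Pi.add_apply, add_smul, Finset.sum_add_distrib, Prod.mk_add_mk]
      map_smul' := by
        intro r a
        simp only [Pi.smul_apply, smul_eq_mul, RingHom.id_apply, Prod.smul_mk, Finset.mul_sum,
          Finset.smul_sum, mul_smul] }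
  have hlt : Module.finrank ℝ (ℝ × V4) < Module.finrank ℝ (S → ℝ) := by
    rw [Module.finrank_prod, Module.finrank_self, Module.finrank_fintype_fun_eq_card,
      Module.finrank_fintype_fun_eq_card, Fintype.card_coe, hS]
    simp
  obtain ⟨μ, hμ, hμ0⟩ := (Submodule.ne_bot_iff _).mp (LinearMap.ker_ne_bot_of_finrank_lt hlt : LinearMap.ker L ≠ ⊥)
  rw [LinearMap.mem_ker] at hμ
  have e1 : ∑ k, μ k = 0 := congrArg Prod.fst hμ
  have e2 : ∑ k : S, μ k • x k = 0 := congrArg Prod.snd hμ
  refine ⟨fun k => if h : k ∈ S then μ ⟨k, h⟩ else 0, ?_, ?_, ?_, ?_⟩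
  · intro h
    apply hμ0
    funext k
    have := congrFun h k.1
    simpa using this
  · intro k hk
    exact dif_neg hk
  · have h3 : ∑ k, (if h : k ∈ S then μ ⟨k, h⟩ else 0) = ∑ k : S, μ k := by
      rw [← Finset.sum_subset (Finset.subset_univ S) (fun k _ hk => dif_neg hk)]
      rw [← Finset.sum_coe_sort S]
      refine Finset.sum_congr rfl (fun k _ => ?_)
      rw [dif_pos k.2]
    exact h3.trans e1
  · have h3 : ∑ k, (if h : k ∈ S then μ ⟨k, h⟩ else 0) • x k = ∑ k : S, μ k • x k := by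
      rw [← Finset.sum_subset (Finset.subset_univ S) (fun k _ hk => by rw [dif_neg hk, zero_smul])]
      rw [← Finset.sum_coe_sort S]
      refine Finset.sum_congr rfl (fun k _ => ?_)
      rw [dif_pos k.2]
    exact h3.trans e2

/-- the pattern at one transversal -/
def Pat {n : ℕ} (g : Fin 7 × Fin n → V4) (τ σ : Finset (Fin 7)) (y : Fin 7 → Fin n) : Prop :=
  ∃ ν : Fin 7 → ℝ, ∑ k, ν k = 0 ∧ ∑ k, ν k • g (k, y k) = 0 ∧ (∀ k ∈ τ, 0 < ν k) ∧ (∀ k ∈ σ, ν k < 0) ∧
        (∀ k, k ∉ τ → k ∉ σ → ν k = 0)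

lemma mem_cl {n : ℕ} {g : Fin 7 × Fin n → V4} {Y : Fin 7 → Finset (Fin n)} {k : Fin 7} {a : Fin n}
    (ha : a ∈ Y k) : g (k, a) ∈ convexHull ℝ ((fun a => g (k, a)) '' (Y k : Set (Fin n))) :=
  subset_convexHull ℝ _ ⟨a, ha, rfl⟩

/-- (E3) moving one point -/
lemma move {n : ℕ} {g : Fin 7 × Fin n → V4} {Y : Fin 7 → Finset (Fin n)}
    (hS : ∀ I J : Finset (Fin 7), Disjoint I J → I.card + J.card ≤ 5 → Sep g Y I J)
    {τ σ : Finset (Fin 7)} (hτ : τ.card = 3) (hσ : σ.card = 3) (hd : Disjoint τ σ)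
    (y y' : Fin 7 → Fin n) (hy : ∀ k, y k ∈ Y k) (hy' : ∀ k, y' k ∈ Y k) (k1 : Fin 7)
    (hyy : ∀ k, k ≠ k1 → y' k = y k) (hP : Pat g τ σ y) : Pat g τ σ y' := by
  obtain ⟨ν, h0, h1, hp, hm, hz⟩ := hP
  by_cases hk1 : ν k1 = 0
  · refine ⟨ν, h0, ?_, hp, hm, hz⟩
    rw [← h1]
    refine Finset.sum_congr rfl (fun k _ => ?_)
    by_cases hk : k = k1
    · rw [hk, hk1, zero_smul, zero_smul]
    · rw [hyy k hk]
  have hSc : (τ ∪ σ).card = 6 := by rw [Finset.card_union_of_disjoint hd, hτ, hσ]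
  have hνne : ∀ k ∈ τ ∪ σ, ν k ≠ 0 := by
    intro k hk
    rcases Finset.mem_union.mp hk with hk | hk
    · exact (hp k hk).ne'
    · exact (hm k hk).ne
  have hν0 : ∀ k, k ∉ τ ∪ σ → ν k = 0 := by
    intro k hk
    rw [Finset.mem_union, not_or] at hk
    exact hz k hk.1 hk.2
  have hk1S : k1 ∈ τ ∪ σ := by
    by_contra h
    exact hk1 (hν0 k1 h)
  obtain ⟨ρ, hρ, hρS, hρ0, hρ1⟩ := exists_dep (τ ∪ σ) hSc (fun k => g (k, y' k))
  -- all coefficients in `τ ∪ σ` are nonzero
  have hρne : ∀ k ∈ τ ∪ σ, ρ k ≠ 0 := by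
    intro k hk hk0
    apply hρ
    apply indep hS (fun k => g (k, y' k)) ρ (fun k _ => mem_cl (hy' k)) hρ0 hρ1
    have h2 : univ.filter (fun k => ρ k ≠ 0) ⊆ (τ ∪ σ).erase k := by
      intro j hj
      rw [Finset.mem_filter] at hj
      rw [Finset.mem_erase]
      refine ⟨?_, ?_⟩
      · rintro rfl
        exact hj.2 hk0
      · by_contra h
        exact hj.2 (hρS j h)
    refine (Finset.card_le_card h2).trans ?_
    rw [Finset.card_erase_of_mem hk, hSc]
  -- normalise
  set r : ℝ := ν k1 / ρ k1 with hr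
  set ν' : Fin 7 → ℝ := fun k => r * ρ k with hν'
  have hr1 : ν' k1 = ν k1 := by
    show r * ρ k1 = ν k1
    rw [hr]
    field_simp [hρne k1 hk1S]
  have h0' : ∑ k, ν' k = 0 := by
    show ∑ k, r * ρ k = 0
    rw [← Finset.mul_sum, hρ0, mul_zero]
  have h1' : ∑ k, ν' k • g (k, y' k) = 0 := by
    show ∑ k, (r * ρ k) • g (k, y' k) = 0
    simp only [mul_smul]
    rw [← Finset.smul_sum, hρ1, smul_zero]
  have hsame : ∀ k, k ≠ k1 → 0 ≤ ν k * ν' k := by
    intro k2 hk2
    by_contra hneg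
    push Not at hneg
    set a : ℝ := |ν' k2| with ha
    set b : ℝ := |ν k2| with hb
    have hn2 : ν k2 ≠ 0 := by
      intro h; rw [h, zero_mul] at hneg; exact lt_irrefl _ hneg
    have hn2' : ν' k2 ≠ 0 := by
      intro h; rw [h, mul_zero] at hneg; exact lt_irrefl _ hneg
    have ha0 : 0 < a := abs_pos.mpr hn2'
    have hb0 : 0 < b := abs_pos.mpr hn2
    have hab : a * ν k2 + b * ν' k2 = 0 := by
      rcases lt_or_gt_of_ne hn2 with h | h
      · have h' : 0 < ν' k2 := by nlinarith
        rw [ha, hb, abs_of_pos h', abs_of_neg h]; ring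
      · have h' : ν' k2 < 0 := by nlinarith
        rw [ha, hb, abs_of_neg h', abs_of_pos h]; ring
    set z : Fin 7 → V4 := fun k => if k = k1 then (a / (a + b)) • g (k1, y k1) + (b / (a + b)) • g (k1, y' k1)
      else g (k, y k) with hzd
    have hμ := indep hS z (fun k => a * ν k + b * ν' k) ?_ ?_ ?_ ?_
    · have h5 := congrFun hμ k1
      simp only [hr1, Pi.zero_apply] at h5
      have h6 : (a + b) * ν k1 = 0 := by linarith
      rcases mul_eq_zero.mp h6 with h7 | h7
      · linarith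
      · exact hk1 h7
    · intro k _
      by_cases hk : k = k1
      · rw [hzd]
        simp only [if_pos hk]
        rw [hk]
        apply convex_convexHull ℝ _ (mem_cl (hy k1)) (mem_cl (hy' k1)) (by positivity) (by positivity)
        field_simp
      · rw [hzd]
        simp only [if_neg hk]
        exact mem_cl (hy k)
    · rw [Finset.sum_add_distrib, ← Finset.mul_sum, ← Finset.mul_sum, h0, h0']
      ring
    · have h5 : ∀ k, (a * ν k + b * ν' k) • z k = a • (ν k • g (k, y k)) + b • (ν' k • g (k, y' k)) := by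
        intro k
        by_cases hk : k = k1
        · rw [hk, hzd]
          simp only [if_true, hr1]
          rw [smul_add, smul_smul, smul_smul, smul_smul, smul_smul]
          congr 2
          · field_simp
          · field_simp
        · rw [hzd]
          simp only [if_neg hk]
          rw [hyy k hk, add_smul, mul_smul, mul_smul]
      rw [Finset.sum_congr rfl (fun k _ => h5 k), Finset.sum_add_distrib, ← Finset.smul_sum,
        ← Finset.smul_sum, h1, h1', smul_zero, smul_zero, add_zero]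
    · have h2 : univ.filter (fun k => a * ν k + b * ν' k ≠ 0) ⊆ (τ ∪ σ).erase k2 := by
        intro j hj
        rw [Finset.mem_filter] at hj
        rw [Finset.mem_erase]
        refine ⟨?_, ?_⟩
        · rintro rfl
          exact hj.2 hab
        · by_contra h
          apply hj.2
          rw [hν0 j h]
          show a * 0 + b * (r * ρ j) = 0
          rw [hρS j h]
          ring
      have hk2S : k2 ∈ τ ∪ σ := by
        by_contra h
        exact hn2 (hν0 k2 h)
      refine (Finset.card_le_card h2).trans ?_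
      rw [Finset.card_erase_of_mem hk2S, hSc]
  have hrne : r ≠ 0 := by
    rw [hr]
    exact div_ne_zero hk1 (hρne k1 hk1S)
  have hne' : ∀ k ∈ τ ∪ σ, ν' k ≠ 0 := fun k hk => mul_ne_zero hrne (hρne k hk)
  have hpos : ∀ k, ν k ≠ 0 → ν' k ≠ 0 → 0 < ν k * ν' k := by
    intro k hk hk'
    by_cases hkk : k = k1
    · rw [hkk, hr1]
      exact mul_self_pos.mpr hk1
    · exact lt_of_le_of_ne (hsame k hkk) (mul_ne_zero hk hk').symm
  refine ⟨ν', h0', h1', ?_, ?_, ?_⟩
  · intro k hk
    have hkS : k ∈ τ ∪ σ := Finset.mem_union_left _ hk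
    have h5 := hpos k (hνne k hkS) (hne' k hkS)
    have h6 := hp k hk
    exact (pos_iff_pos_of_mul_pos h5).mp h6
  · intro k hk
    have hkS : k ∈ τ ∪ σ := Finset.mem_union_right _ hk
    have h5 := hpos k (hνne k hkS) (hne' k hkS)
    have h6 := hm k hk
    exact (neg_iff_neg_of_mul_pos h5).mp h6
  · intro k hk1' hk2'
    have h5 : k ∉ τ ∪ σ := by
      rw [Finset.mem_union, not_or]; exact ⟨hk1', hk2'⟩
    show r * ρ k = 0
    rw [hρS k h5, mul_zero]

theorem cross (hV : StVKF) : StCross := by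
  intro n g Y hne hS
  choose y0 hy0 using hne
  obtain ⟨μ, hμ, h0, h1, hp, hm⟩ := hV (fun k => g (k, y0 k))
  set τ := univ.filter (fun k => 0 < μ k) with hτ
  set σ := univ.filter (fun k => μ k < 0) with hσ
  have hd : Disjoint τ σ := by
    rw [Finset.disjoint_left]
    intro k hk hk2
    rw [hτ, Finset.mem_filter] at hk
    rw [hσ, Finset.mem_filter] at hk2
    linarith [hk.2, hk2.2]
  have hun : τ ∪ σ = univ.filter (fun k => μ k ≠ 0) := by
    ext k
    rw [Finset.mem_union, hτ, hσ, Finset.mem_filter, Finset.mem_filter, Finset.mem_filter]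
    constructor
    · rintro (h | h)
      · exact ⟨Finset.mem_univ _, h.2.ne'⟩
      · exact ⟨Finset.mem_univ _, h.2.ne⟩
    · rintro ⟨_, h⟩
      rcases lt_or_gt_of_ne h with h | h
      · right; exact ⟨Finset.mem_univ _, h⟩
      · left; exact ⟨Finset.mem_univ _, h⟩
  have h6 : 6 ≤ (τ ∪ σ).card := by
    by_contra h
    apply hμ
    apply indep hS (fun k => g (k, y0 k)) μ (fun k _ => mem_cl (hy0 k)) h0 h1
    rw [← hun]
    omega
  rw [Finset.card_union_of_disjoint hd] at h6
  have hτ3 : τ.card = 3 := by omega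
  have hσ3 : σ.card = 3 := by omega
  refine ⟨τ, σ, hτ3, hσ3, hd, ?_⟩
  have hP0 : Pat g τ σ y0 := by
    refine ⟨μ, h0, h1, ?_, ?_, ?_⟩
    · intro k hk
      rw [hτ, Finset.mem_filter] at hk
      exact hk.2
    · intro k hk
      rw [hσ, Finset.mem_filter] at hk
      exact hk.2
    · intro k hk hk2
      rw [hτ, Finset.mem_filter, not_and] at hk
      rw [hσ, Finset.mem_filter, not_and] at hk2
      have := hk (Finset.mem_univ _)
      have := hk2 (Finset.mem_univ _)
      linarith
  intro y hy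
  have key : ∀ s : Finset (Fin 7), Pat g τ σ (fun k => if k ∈ s then y k else y0 k) := by
    intro s
    induction s using Finset.induction_on with
    | empty => simpa using hP0
    | insert k1 s hk1 ih =>
      refine move hS hτ3 hσ3 hd _ _ ?_ ?_ k1 ?_ ih
      · intro k
        split_ifs
        · exact hy k
        · exact hy0 k
      · intro k
        split_ifs
        · exact hy k
        · exact hy0 k
      · intro k hk
        simp [Finset.mem_insert, hk]
  have := key univ
  simpa [Pat] using this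

end Pool.Agent.T9h87.Lin
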