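import Pool.Agent.T9h87.Lin.Spec
import Pool.Agent.Results.MP_c5a51c_co.PolyhedralCounterexample

set_option autoImplicit false
set_option linter.unusedSectionVars false

namespace Pool.Agent.T9h87.Lin

open Finset
open scoped Classical
open Pool.Agent.Results.MP_c5a51c_co.PolyhedralCounterexample

section combi

variable {W : Type} [Fintype W] {H : Finset (Finset W)}

lemma mem_Mx {s : Finset (W ⊕ Fin 3 × Bool)} : s ∈ Mx H ↔ s.Nonempty ∧ (s.card = 1 ∨
    (∃ T ∈ H, s ⊆ T.map Function.Embedding.inl) ∨ ((∀ x ∈ s, ∃ y, x = Sum.inr y) ∧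
      ∀ i : Fin 3, ¬ (Sum.inr (i, true) ∈ s ∧ Sum.inr (i, false) ∈ s))) := by
  unfold Mx
  rw [Finset.mem_filter]
  exact ⟨fun h => h.2, fun h => ⟨Finset.mem_univ _, h⟩⟩

lemma Mx_ne {s : Finset (W ⊕ Fin 3 × Bool)} (hs : s ∈ Mx H) : s.Nonempty := (mem_Mx.mp hs).1

lemma Mx_sing (i : W ⊕ Fin 3 × Bool) : {i} ∈ Mx H :=
  mem_Mx.mpr ⟨Finset.singleton_nonempty i, Or.inl (Finset.card_singleton i)⟩

lemma Mx_down {s t : Finset (W ⊕ Fin 3 × Bool)} (hs : s ∈ Mx H) (hts : t ⊆ s) (ht : t.Nonempty) :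
    t ∈ Mx H := by
  obtain ⟨h0, h1⟩ := mem_Mx.mp hs
  refine mem_Mx.mpr ⟨ht, ?_⟩
  rcases h1 with h1 | ⟨T, hT, h1⟩ | ⟨h1, h2⟩
  · left
    have h3 := Finset.card_le_card hts
    have h4 := Finset.card_pos.mpr ht
    omega
  · right; left
    exact ⟨T, hT, hts.trans h1⟩
  · right; right
    exact ⟨fun x hx => h1 x (hts hx), fun i hi => h2 i ⟨hts hi.1, hts hi.2⟩⟩

lemma Mx_card (h3 : ∀ T ∈ H, T.card = 3) {s : Finset (W ⊕ Fin 3 × Bool)} (hs : s ∈ Mx H) : s.card ≤ 3 := by
  obtain ⟨h0, h1⟩ := mem_Mx.mp hs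
  rcases h1 with h1 | ⟨T, hT, h1⟩ | ⟨h1, h2⟩
  · omega
  · have := Finset.card_le_card h1
    rw [Finset.card_map, h3 T hT] at this
    exact this
  · have h4 : s.card ≤ (univ : Finset (Fin 3)).card := by
      apply Finset.card_le_card_of_injOn (fun x => Sum.elim (fun _ => (0 : Fin 3)) (fun y => y.1) x)
      · intro x _
        exact Finset.mem_univ _
      · intro x hx x' hx' hxx
        obtain ⟨⟨i, b⟩, rfl⟩ := h1 x hx
        obtain ⟨⟨i', b'⟩, rfl⟩ := h1 x' hx'
        simp only [Sum.elim_inr] at hxx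
        subst hxx
        have hx2 : (Sum.inr (i, b) : W ⊕ Fin 3 × Bool) ∈ s := hx
        have hx2' : (Sum.inr (i, b') : W ⊕ Fin 3 × Bool) ∈ s := hx'
        cases b <;> cases b'
        · rfl
        · exact absurd ⟨hx2', hx2⟩ (h2 i)
        · exact absurd ⟨hx2, hx2'⟩ (h2 i)
        · rfl
    simpa using h4

end combi

section moment

variable {ι : Type} [Fintype ι]

/-- a system of points such that the values of polynomials of degree at most five are affine functionals -/
def Mom (τ : ι → ℝ) (p : ι → E5) : Prop :=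
  Function.Injective τ ∧ ∀ P : Polynomial ℝ, P.natDegree ≤ 5 → ∃ (f : E5 →ₗ[ℝ] ℝ) (c : ℝ), ∀ i, f (p i) - c = P.eval (τ i)

lemma Mom.indep {τ : ι → ℝ} {p : ι → E5} (h : Mom τ p) (s : Finset ι) (hs : s.card ≤ 6) (μ : ι → ℝ)
    (hμ : ∀ i, i ∉ s → μ i = 0) (h0 : ∑ i ∈ s, μ i = 0) (h1 : ∑ i ∈ s, μ i • p i = 0) : ∀ i, μ i = 0 := by
  intro i0
  by_contra hne
  have hi0 : i0 ∈ s := by
    by_contra h2
    exact hne (hμ i0 h2)
  set P : Polynomial ℝ := ∏ j ∈ s.erase i0, (Polynomial.X - Polynomial.C (τ j)) with hP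
  have hdeg : P.natDegree ≤ 5 := by
    rw [hP, Polynomial.natDegree_prod _ _ (fun j _ => Polynomial.X_sub_C_ne_zero _)]
    simp only [Polynomial.natDegree_X_sub_C, Finset.sum_const, smul_eq_mul, mul_one]
    rw [Finset.card_erase_of_mem hi0]
    omega
  obtain ⟨f, c, hf⟩ := h.2 P hdeg
  have h2 : ∑ i ∈ s, μ i * P.eval (τ i) = 0 := by
    have h3 : f (∑ i ∈ s, μ i • p i) = 0 := by rw [h1, map_zero]
    rw [map_sum] at h3
    simp only [map_smul, smul_eq_mul] at h3
    have h4 : ∀ i ∈ s, μ i * P.eval (τ i) = μ i * f (p i) - μ i * c := by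
      intro i _
      rw [← hf i]; ring
    rw [Finset.sum_congr rfl h4, Finset.sum_sub_distrib, h3, ← Finset.sum_mul, h0]
    ring
  rw [Finset.sum_eq_single i0] at h2
  · rcases mul_eq_zero.mp h2 with h3 | h3
    · exact hne h3
    · rw [hP, Polynomial.eval_prod, Finset.prod_eq_zero_iff] at h3
      obtain ⟨j, hj, hj2⟩ := h3
      rw [Polynomial.eval_sub, Polynomial.eval_X, Polynomial.eval_C, sub_eq_zero] at hj2
      exact (Finset.ne_of_mem_erase hj) (h.1 hj2).symm
  · intro i hi hii
    have : P.eval (τ i) = 0 := by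
      rw [hP, Polynomial.eval_prod]
      apply Finset.prod_eq_zero (Finset.mem_erase.mpr ⟨hii, hi⟩)
      rw [Polynomial.eval_sub, Polynomial.eval_X, Polynomial.eval_C, sub_self]
    rw [this, mul_zero]
  · intro h3
    exact absurd hi0 h3

/-- two convex combinations of at most six points in all agree only if their weights do -/
lemma Mom.eq_of_sum {τ : ι → ℝ} {p : ι → E5} (h : Mom τ p) (s t : Finset ι) (hs : s.card ≤ 3) (ht : t.card ≤ 3)
    (x y : ι → ℝ) (hx : ∀ i, i ∉ s → x i = 0) (hy : ∀ i, i ∉ t → y i = 0)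
    (hx1 : ∑ i ∈ s, x i = 1) (hy1 : ∑ i ∈ t, y i = 1)
    (hxy : ∑ i ∈ s, x i • p i = ∑ i ∈ t, y i • p i) : x = y := by
  have e1 : ∑ i ∈ s, x i = ∑ i ∈ s ∪ t, x i :=
    Finset.sum_subset Finset.subset_union_left (fun i _ hi => hx i hi)
  have e2 : ∑ i ∈ t, y i = ∑ i ∈ s ∪ t, y i :=
    Finset.sum_subset Finset.subset_union_right (fun i _ hi => hy i hi)
  have e3 : ∑ i ∈ s, x i • p i = ∑ i ∈ s ∪ t, x i • p i :=
    Finset.sum_subset Finset.subset_union_left (fun i _ hi => by rw [hx i hi, zero_smul])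
  have e4 : ∑ i ∈ t, y i • p i = ∑ i ∈ s ∪ t, y i • p i :=
    Finset.sum_subset Finset.subset_union_right (fun i _ hi => by rw [hy i hi, zero_smul])
  have hc : (s ∪ t).card ≤ 6 := (Finset.card_union_le s t).trans (by omega)
  have key := h.indep (s ∪ t) hc (fun i => x i - y i) (by
      intro i hi
      rw [Finset.mem_union, not_or] at hi
      show x i - y i = 0
      rw [hx i hi.1, hy i hi.2, sub_zero]) (by
      rw [Finset.sum_sub_distrib, ← e1, ← e2, hx1, hy1, sub_self]) (by
      simp only [sub_smul]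
      rw [Finset.sum_sub_distrib, ← e3, ← e4, hxy, sub_self])
  funext i
  have := key i
  linarith

lemma Mom.inj {τ : ι → ℝ} {p : ι → E5} (h : Mom τ p) : Function.Injective p := by
  intro i j hij
  have := h.eq_of_sum {i} {j} (by simp) (by simp) (fun k => if k = i then 1 else 0) (fun k => if k = j then 1 else 0)
    (by intro k hk; rw [Finset.mem_singleton] at hk; exact if_neg hk)
    (by intro k hk; rw [Finset.mem_singleton] at hk; exact if_neg hk) (by simp) (by simp) (by simp [hij])
  have h2 := congrFun this i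
  by_contra hne
  simp [hne] at h2

lemma Mom.cert [DecidableEq ι] {τ : ι → ℝ} {p : ι → E5} (h : Mom τ p) (M : Finset (Finset ι)) (hne : ∀ s ∈ M, s.Nonempty)
    (hsing : ∀ i, {i} ∈ M) (hdown : ∀ s ∈ M, ∀ t, t ⊆ s → t.Nonempty → t ∈ M) (hcard : ∀ s ∈ M, s.card ≤ 3) :
    Cert M p where
  ne := hne
  sing := hsing
  cap := fun s hs t _ hst => hdown s hs _ Finset.inter_subset_left hst
  expose := by
    intro s hs t ht hts
    by_cases hst : t = s
    · refine ⟨0, 0, fun i _ => rfl, fun i hi hit => absurd (hst ▸ hi) hit⟩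
    have hlt : t.card < s.card := Finset.card_lt_card (Finset.ssubset_iff_subset_ne.mpr ⟨hts, hst⟩)
    have h3 := hcard s hs
    obtain ⟨f, c, hf⟩ := h.2 (-(∏ j ∈ t, (Polynomial.X - Polynomial.C (τ j)) ^ 2)) (by
      rw [Polynomial.natDegree_neg, Polynomial.natDegree_prod _ _ (fun j _ => pow_ne_zero 2 (Polynomial.X_sub_C_ne_zero _))]
      simp only [Polynomial.natDegree_pow, Polynomial.natDegree_X_sub_C, Finset.sum_const, smul_eq_mul, mul_one]
      omega)
    refine ⟨f, c, ?_, ?_⟩
    · intro i hi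
      have h4 := hf i
      rw [Polynomial.eval_neg, Polynomial.eval_prod, Finset.prod_eq_zero hi (by simp)] at h4
      linarith
    · intro i _ hit
      have h4 := hf i
      rw [Polynomial.eval_neg, Polynomial.eval_prod] at h4
      have h5 : 0 < ∏ j ∈ t, Polynomial.eval (τ i) ((Polynomial.X - Polynomial.C (τ j)) ^ 2) := by
        apply Finset.prod_pos
        intro j hj
        rw [Polynomial.eval_pow, Polynomial.eval_sub, Polynomial.eval_X, Polynomial.eval_C]
        have : τ i - τ j ≠ 0 := by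
          intro h6
          exact hit (h.1 (sub_eq_zero.mp h6) ▸ hj)
        positivity
      linarith
  inter := by
    intro s hs t ht z hzs hzt
    obtain ⟨w, hw0, hw1, hwz⟩ := (mem_hull_iff p s z).mp hzs
    obtain ⟨w', hw0', hw1', hwz'⟩ := (mem_hull_iff p t z).mp hzt
    have key := h.eq_of_sum s t (hcard s hs) (hcard t ht) (fun i => if i ∈ s then w i else 0)
      (fun i => if i ∈ t then w' i else 0) (fun i hi => if_neg hi) (fun i hi => if_neg hi)
      (by rw [← hw1]; exact Finset.sum_congr rfl (fun i hi => if_pos hi))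
      (by rw [← hw1']; exact Finset.sum_congr rfl (fun i hi => if_pos hi))
      (by
        have e1 : ∑ i ∈ s, (if i ∈ s then w i else 0) • p i = z := by
          rw [← hwz]; exact Finset.sum_congr rfl (fun i hi => by rw [if_pos hi])
        have e2 : ∑ i ∈ t, (if i ∈ t then w' i else 0) • p i = z := by
          rw [← hwz']; exact Finset.sum_congr rfl (fun i hi => by rw [if_pos hi])
        rw [e1, e2])
    have h0 : ∀ i ∈ s, i ∉ s ∩ t → w i = 0 := by
      intro i hi hit
      have h1 := congrFun key i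
      simp only [if_pos hi] at h1
      rw [h1, if_neg]
      intro h2
      exact hit (Finset.mem_inter.mpr ⟨hi, h2⟩)
    have hgoal : z ∈ hull p (s ∩ t) := by
      rw [mem_hull_iff]
      refine ⟨w, fun i hi => hw0 i (Finset.mem_of_mem_inter_left hi), ?_, ?_⟩
      · rw [← hw1]
        exact Finset.sum_subset Finset.inter_subset_left (fun i hi hit => h0 i hi hit)
      · rw [← hwz]
        exact Finset.sum_subset Finset.inter_subset_left (fun i hi hit => by rw [h0 i hi hit, zero_smul])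
    exact hgoal
  arg := by
    intro s hs f c hf hex
    obtain ⟨i0, hi0, he⟩ := hex
    refine ⟨s.filter (fun i => f (p i) = c), hdown s hs _ (Finset.filter_subset _ _)
      ⟨i0, Finset.mem_filter.mpr ⟨hi0, he⟩⟩, Finset.filter_subset _ _, ?_⟩
    intro i hi
    rw [Finset.mem_filter]
    exact ⟨fun h1 => ⟨hi, h1⟩, fun h1 => h1.2⟩
  inj := h.inj

lemma Mom.affineIndependent {τ : ι → ℝ} {p : ι → E5} (h : Mom τ p) (s : Finset ι) (hs : s.card ≤ 3) :
    AffineIndependent ℝ (fun x : (s.image p : Finset E5) => (x : E5)) := by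
  have h1 : AffineIndependent ℝ (fun i : s => p i) := by
    rw [affineIndependent_iff]
    intro q w hw0 hw1 i hi
    have key := h.indep s (by omega) (fun j => if hj : j ∈ s then (if (⟨j, hj⟩ : s) ∈ q then w ⟨j, hj⟩ else 0) else 0)
      (fun j hj => dif_neg hj) ?_ ?_ i.1
    · rw [dif_pos i.2, if_pos hi] at key
      exact key
    · rw [← Finset.sum_coe_sort s]
      have e : ∀ j : s, (if hj : (j : ι) ∈ s then (if (⟨j, hj⟩ : s) ∈ q then w ⟨j, hj⟩ else 0) else 0) =
          if j ∈ q then w j else 0 := fun j => dif_pos j.2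
      rw [Finset.sum_congr rfl (fun j _ => e j), ← Finset.sum_filter]
      have e2 : (Finset.univ.filter (fun j : s => j ∈ q)) = q := by ext j; simp
      rw [e2]
      exact hw0
    · rw [← Finset.sum_coe_sort s]
      have e : ∀ j : s, (if hj : (j : ι) ∈ s then (if (⟨j, hj⟩ : s) ∈ q then w ⟨j, hj⟩ else 0) else 0) • p j =
          if j ∈ q then w j • p j else 0 := by
        intro j
        rw [dif_pos j.2]
        split_ifs
        · rfl
        · rw [zero_smul]
      rw [Finset.sum_congr rfl (fun j _ => e j), ← Finset.sum_filter]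
      have e2 : (Finset.univ.filter (fun j : s => j ∈ q)) = q := by ext j; simp
      rw [e2]
      exact hw1
  have h2 := h1.range
  have h3 : Set.range (fun i : s => p i) = ((s.image p : Finset E5) : Set E5) := by
    ext x
    simp
  rw [h3] at h2
  exact h2

end moment

end Pool.Agent.T9h87.Lin
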