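import Mathlib

/-! # Linear embeddings of simplicial 2-complexes in dimension four (MP_c5a51c_co, Q2): statements

Every `St...` below is the exact statement of one independent piece.  -/

set_option autoImplicit false

namespace Pool.Agent.T9h87.Lin

open Finset
open scoped Classical

abbrev V4 := Fin 4 → ℝ
abbrev E3 := EuclideanSpace ℝ (Fin 3)
abbrev E5 := EuclideanSpace ℝ (Fin 5)

/-- general position: a hyperplane contains at most four of the points -/
def GP {ι : Type} (g : ι → V4) : Prop :=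
  ∀ (l : V4 →ₗ[ℝ] ℝ) (c : ℝ), l ≠ 0 → ∀ s : Finset ι, (∀ i ∈ s, l (g i) = c) → s.card ≤ 4

/-- (A) centre points (Helly: `Convex.helly_theorem'`, applied to the hulls of the subfamilies `S` of `X`
with `5 * (X \ S).card < X.card`) -/
def StCenter : Prop :=
  ∀ (ι : Type) (X : Finset ι) (g : ι → V4), ∃ z : V4, ∀ l : V4 →ₗ[ℝ] ℝ,
    X.card ≤ 5 * (X.filter (fun x => l (g x) ≤ l z)).card

/-- the clusters `Y k`, `k ∈ I` and `Y k`, `k ∈ J` are strictly separated -/
def Sep {n : ℕ} (g : Fin 7 × Fin n → V4) (Y : Fin 7 → Finset (Fin n)) (I J : Finset (Fin 7)) : Prop :=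
  ∃ (l : V4 →ₗ[ℝ] ℝ) (c : ℝ), (∀ k ∈ I, ∀ a ∈ Y k, l (g (k, a)) < c) ∧
    (∀ k ∈ J, ∀ a ∈ Y k, c < l (g (k, a)))

/-- (C) one separation step: leave out one `k0` of `I ∪ J`, take a hyperplane `l = c`, `l ≠ 0`, through the
centre points of the other (at most four) clusters `Y k`, `k ∈ I ∪ J`; both closed sides contain a fifth
of each of these clusters; replace `(l, c)` by `(-l, -c)` such that the closed side wanted for `k0`
contains half of `Y k0`; intersect with the open sides (general position: at most 4 points are lost). -/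
def StStep : Prop :=
  ∀ (n : ℕ) (g : Fin 7 × Fin n → V4), GP g → ∀ (Y : Fin 7 → Finset (Fin n)) (I J : Finset (Fin 7)),
    Disjoint I J → I.card + J.card ≤ 5 →
    ∃ Y' : Fin 7 → Finset (Fin n), (∀ k, Y' k ⊆ Y k) ∧ (∀ k, (Y k).card ≤ 5 * (Y' k).card + 20) ∧
      Sep g Y' I J

/-- (D) iteration of (C) over all pairs `(I, J)` -/
def StSepAll : Prop :=
  ∃ Q : ℕ, 0 < Q ∧ ∀ (n : ℕ) (g : Fin 7 × Fin n → V4), GP g → Q ≤ n →
    ∃ Y : Fin 7 → Finset (Fin n), (∀ k, n ≤ Q * (Y k).card) ∧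
      ∀ I J : Finset (Fin 7), Disjoint I J → I.card + J.card ≤ 5 → Sep g Y I J

/-- (E1) van Kampen-Flores for seven points in dimension four: the space `L` of dependencies has dimension
at least two, so `L \ {0}` is connected (`isConnected_compl_singleton_of_one_lt_rank`); it is covered by the
disjoint open sets `at least 4 positive`, `at least 4 negative`, exchanged by `-1`, unless the claim holds. -/
def StVKF : Prop :=
  ∀ g : Fin 7 → V4, ∃ μ : Fin 7 → ℝ, μ ≠ 0 ∧ ∑ k, μ k = 0 ∧ ∑ k, μ k • g k = 0 ∧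
    (univ.filter (fun k => 0 < μ k)).card ≤ 3 ∧ (univ.filter (fun k => μ k < 0)).card ≤ 3

/-- (E) from (E1): a crossing pattern common to all transversals -/
def StCross : Prop :=
  ∀ (n : ℕ) (g : Fin 7 × Fin n → V4) (Y : Fin 7 → Finset (Fin n)), (∀ k, (Y k).Nonempty) →
    (∀ I J : Finset (Fin 7), Disjoint I J → I.card + J.card ≤ 5 → Sep g Y I J) →
    ∃ τ σ : Finset (Fin 7), τ.card = 3 ∧ σ.card = 3 ∧ Disjoint τ σ ∧
      ∀ y : Fin 7 → Fin n, (∀ k, y k ∈ Y k) → ∃ ν : Fin 7 → ℝ, ∑ k, ν k = 0 ∧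
        ∑ k, ν k • g (k, y k) = 0 ∧ (∀ k ∈ τ, 0 < ν k) ∧ (∀ k ∈ σ, ν k < 0) ∧
        (∀ k, k ∉ τ → k ∉ σ → ν k = 0)

/-- linear three-uniform hypergraphs on seven classes -/
structure Lin7 {n : ℕ} (H : Finset (Finset (Fin 7 × Fin n))) : Prop where
  form : ∀ T ∈ H, ∃ (i j k : Fin 7) (a b c : Fin n), i < j ∧ j < k ∧ T = {(i, a), (j, b), (k, c)}
  lin : ∀ T ∈ H, ∀ T' ∈ H, T ≠ T' → (T ∩ T').card ≤ 1

/-- (G) quasi-random linear hypergraphs, greedily: as long as `42 * m * q ^ 3 ≤ n ^ 2` (`m = H.card`) some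
triple `t` which shares at most one vertex with every member of `H` lies in at least a fraction
`1 / (70 q ^ 3)` of the boxes `(i, j, k, A, B, C)` not yet hit (every box contains at least
`n ^ 3 / q ^ 3` triples, at most `21 n m` triples are forbidden, there are `35 n ^ 3` triples);
at most `35 * 8 ^ n` boxes; `m = 210 q ^ 3 n` steps, `n ≥ 8820 q ^ 6`. -/
def StHyp : Prop :=
  ∀ q : ℕ, 0 < q → ∀ N : ℕ, ∃ n : ℕ, N ≤ n ∧ ∃ H : Finset (Finset (Fin 7 × Fin n)), Lin7 H ∧
    ∀ i j k : Fin 7, i < j → j < k → ∀ A B C : Finset (Fin n), n ≤ q * A.card → n ≤ q * B.card →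
      n ≤ q * C.card → ∃ a ∈ A, ∃ b ∈ B, ∃ c ∈ C, ({(i, a), (j, b), (k, c)} : Finset _) ∈ H

/-- (P) perturbation into general position: `g' = g + ε γ`, `γ` on the moment curve; the determinants of
the matrices with the five rows `(1, g i + ε γ i)` are nonzero polynomials in `ε` (leading coefficient at
`ε ^ 4`: Vandermonde), so all but finitely many `ε` are good. -/
def StPert : Prop :=
  ∀ (ι : Type) [Fintype ι] (g : ι → V4) (ε : ℝ), 0 < ε → ∃ g' : ι → V4, GP g' ∧ ∀ i, ‖g' i - g i‖ < ε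

/-- the abstract complex: the members of `H` and their subsets, all vertices, and the boundary of the
octahedron on the six further vertices -/
noncomputable def Mx {W : Type} [Fintype W] (H : Finset (Finset W)) : Finset (Finset (W ⊕ Fin 3 × Bool)) :=
  univ.filter (fun s => s.Nonempty ∧ (s.card = 1 ∨ (∃ T ∈ H, s ⊆ T.map Function.Embedding.inl) ∨
    ((∀ x ∈ s, ∃ y, x = Sum.inr y) ∧
      ∀ i : Fin 3, ¬ (Sum.inr (i, true) ∈ s ∧ Sum.inr (i, false) ∈ s))))

/-- the realisation of an abstract complex in barycentric coordinates -/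
def KK {ι : Type} [Fintype ι] (M : Finset (Finset ι)) : Set (ι → ℝ) :=
  {x | ∃ s ∈ M, (∀ i, 0 ≤ x i) ∧ ∑ i, x i = 1 ∧ ∀ i, i ∉ s → x i = 0}

/-- (H) embedding into three-space: with `z : W → ℝ` injective (natural numbers) and `t : H → ℝ` injective,
`x ↦ (∑ x_v z_v, Var, ∑_T t_T Var_T)`, `Var = ∑ x_v z_v ^ 2 - (∑ x_v z_v) ^ 2` (on `x` supported in `W`),
`Var_T = ∑_{a < b in T} x_a x_b (z_a - z_b) ^ 2` (so that on the face `T` it is `Var` and on the other faces
it vanishes); `Var = 0` only at vertices; `(∑ x z, ∑ x z^2)` is injective on a triangle (parabola).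
The octahedron: `x ↦ (x_(0,+) - x_(0,-), ...)` plus a shift of the first coordinate by `-10` times the mass
of the six vertices. -/
def StTop : Prop :=
  ∀ (W : Type) [Fintype W] (H : Finset (Finset W)), (∀ T ∈ H, T.card = 3) →
    (∀ T ∈ H, ∀ T' ∈ H, T ≠ T' → (T ∩ T').card ≤ 1) →
    ∃ F : (W ⊕ Fin 3 × Bool → ℝ) → E3, Continuous F ∧ Set.InjOn F (KK (Mx H))

/-- (I) no embedding into the plane: restrict to the octahedron; use `no_sphere_embedding` of
`Pool.Agent.Results.MP_c5a51c_co.PolyhedralCounterexample` (part9), with the map from the unit sphere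
`u ↦ (positive and negative parts of u_i) / (|u_0| + |u_1| + |u_2|)`. -/
def StLow : Prop :=
  ∀ (W : Type) [Fintype W] (H : Finset (Finset W)) (h : (W ⊕ Fin 3 × Bool → ℝ) → ℂ),
    ContinuousOn h (KK (Mx H)) → ¬ Set.InjOn h (KK (Mx H))

/-- (J1) points on the moment curve of five-space: functionals are polynomials of degree at most five -/
def StMom : Prop :=
  ∀ (ι : Type) [Fintype ι], ∃ (τ : ι → ℝ) (p : ι → E5), Function.Injective τ ∧
    ∀ P : Polynomial ℝ, P.natDegree ≤ 5 → ∃ (f : E5 →ₗ[ℝ] ℝ) (c : ℝ), ∀ i, f (p i) - c = P.eval (τ i)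

/-- (F) the core theorem -/
def StCore : Prop :=
  ∃ (n : ℕ) (H : Finset (Finset (Fin 7 × Fin n))), Lin7 H ∧ ∀ g : Fin 7 × Fin n → V4,
    ∃ T ∈ H, ∃ T' ∈ H, Disjoint T T' ∧ ∃ w w' : Fin 7 × Fin n → ℝ, (∀ i ∈ T, 0 ≤ w i) ∧
      (∀ i ∈ T', 0 ≤ w' i) ∧ ∑ i ∈ T, w i = 1 ∧ ∑ i ∈ T', w' i = 1 ∧
      ∑ i ∈ T, w i • g i = ∑ i ∈ T', w' i • g i

end Pool.Agent.T9h87.Lin
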